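import Pool.Agent.H59.KA.Stmts
import Pool.Agent.H33.KG.INV

/-!
# Project KA, module QCB: change of the basis in quadratic polynomials
-/

set_option autoImplicit false

open MeasureTheory Set Filter Topology
open scoped ContDiff Matrix

namespace Pool.Agent.H59.KA

open Pool.Agent.H84 hiding cv mn
open Pool.Agent.H84.Sym Pool.Agent.H84.Sym.P2x Pool.Agent.H19.KL
open Pool.Agent.H73.KG Pool.Agent.H20.KH Pool.Agent.H78.KP

section

variable {E : Type} [NormedAddCommGroup E] [InnerProductSpace ℝ E]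
    [FiniteDimensional ℝ E] [MeasurableSpace E] [BorelSpace E]
variable {ι : Type} [Fintype ι]

theorem QCB_Ph (M B : Matrix ι ι ℝ) (v : ι → ℝ) :
    Ph M B v = (M * B * (M * B)).trace + v ⬝ᵥ (M *ᵥ v) := by
  unfold Ph
  congr 1
  · unfold Matrix.trace
    refine Finset.sum_congr rfl fun i _ => ?_
    rw [Matrix.diag_apply, Matrix.mul_apply, Finset.sum_comm]
    refine Finset.sum_congr rfl fun k _ => ?_
    rw [Matrix.mul_apply, Matrix.mul_apply, Finset.sum_mul_sum]
  · unfold dotProduct Matrix.mulVec dotProduct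
    refine Finset.sum_congr rfl fun i _ => ?_
    rw [Finset.mul_sum]
    refine Finset.sum_congr rfl fun j _ => ?_
    ring

theorem QCB_adj (A : Matrix ι ι ℝ) (u w : ι → ℝ) : (A *ᵥ u) ⬝ᵥ w = u ⬝ᵥ (Aᵀ *ᵥ w) := by
  rw [dotProduct_comm, Matrix.dotProduct_mulVec, ← Matrix.mulVec_transpose, dotProduct_comm]

theorem QCB_mn {U : E → ℝ} {t : ℝ} (hU : PP U t) (c : OrthonormalBasis ι ℝ E) (e : E) :
    mn U e = ∑ k, (inner ℝ (c k) e : ℝ) * mn U (c k) := by
  obtain ⟨⟨C, hU⟩, hP⟩ := hU
  unfold mn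
  simp_rw [← integral_const_mul]
  rw [← integral_finsetSum]
  · refine integral_congr_ae (Eventually.of_forall fun x => ?_)
    change li e x = ∑ k, (inner ℝ (c k) e : ℝ) * li (c k) x
    unfold li
    rw [← c.sum_inner_mul_inner]
    refine Finset.sum_congr rfl fun k _ => ?_
    rw [real_inner_comm]
  · intro k _
    exact ((BAS_li (c k)).integrable hU).const_mul _

theorem qcb_thm (E : Type) [NormedAddCommGroup E] [InnerProductSpace ℝ E]
    [FiniteDimensional ℝ E] [MeasurableSpace E] [BorelSpace E] : QCBStmt E := by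
  intro U t hU ι _ _ b c B v hB
  obtain ⟨⟨C, hP⟩, hprob⟩ := id hU
  set O : Matrix ι ι ℝ := Matrix.of fun i k => (inner ℝ (c k) (b i) : ℝ) with hO
  have hOO : O * Oᵀ = 1 := by
    ext i j
    rw [Matrix.mul_apply]
    have h1 : ∀ k, O i k * Oᵀ k j = inner ℝ (b i) (c k) * inner ℝ (c k) (b j) := by
      intro k
      rw [Matrix.transpose_apply, hO, Matrix.of_apply, Matrix.of_apply, real_inner_comm (b i) (c k)]
    rw [Finset.sum_congr rfl fun k _ => h1 k, c.sum_inner_mul_inner, b.inner_eq_ite,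
      Matrix.one_apply]
  have hcm : cm b U = O * cm c U * Oᵀ := by
    ext i j
    have h1 : cm b U i j = INV_cv hP (b i) (b j) := rfl
    have e1 : b i = ∑ k, (inner ℝ (c k) (b i) : ℝ) • c k := (c.sum_repr' (b i)).symm
    have e2 : b j = ∑ l, (inner ℝ (c l) (b j) : ℝ) • c l := (c.sum_repr' (b j)).symm
    have h2 : INV_cv hP (b i) (b j) = ∑ k, ∑ l, O i k * cm c U k l * O j l := by
      conv_lhs => rw [e1, e2]
      simp only [map_sum, LinearMap.sum_apply, map_smul, LinearMap.smul_apply, smul_eq_mul,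
        Finset.mul_sum]
      rw [Finset.sum_comm]
      refine Finset.sum_congr rfl fun k _ => Finset.sum_congr rfl fun l _ => ?_
      change _ = (inner ℝ (c k) (b i) : ℝ) * INV_cv hP (c k) (c l) * (inner ℝ (c l) (b j) : ℝ)
      ring
    rw [h1, h2, Matrix.mul_apply, Finset.sum_comm]
    refine Finset.sum_congr rfl fun l _ => ?_
    rw [Matrix.mul_apply, Finset.sum_mul]
    rfl
  have hM : cm b U + 1 = O * (cm c U + 1) * Oᵀ := by
    rw [Matrix.mul_add, Matrix.add_mul, ← hcm, Matrix.mul_one, hOO]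
  have hli : ∀ x : E, (fun i => li (b i) x) = O *ᵥ (fun k => li (c k) x) := by
    intro x
    funext i
    unfold Matrix.mulVec dotProduct li
    rw [← c.sum_inner_mul_inner]
    refine Finset.sum_congr rfl fun k _ => ?_
    change _ = (inner ℝ (c k) (b i) : ℝ) * inner ℝ (c k) x
    rw [real_inner_comm (b i) (c k)]
  have hmn : (fun i => mn U (b i)) = O *ᵥ (fun k => mn U (c k)) := by
    funext i
    rw [QCB_mn hU c (b i)]
    rfl
  refine ⟨Oᵀ * B * O, Oᵀ *ᵥ v, ?_, ?_, ?_⟩
  · intro i j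
    have h1 : (Oᵀ * B * O)ᵀ = Oᵀ * B * O := by
      rw [Matrix.transpose_mul, Matrix.transpose_mul, Matrix.transpose_transpose]
      have h2 : Bᵀ = B := by
        ext i j
        exact hB j i
      rw [h2, Matrix.mul_assoc]
    have h3 := congrFun (congrFun h1 i) j
    rw [Matrix.transpose_apply] at h3
    exact h3.symm
  · funext x
    have hq : ∀ (a : OrthonormalBasis ι ℝ E) (B' : Matrix ι ι ℝ) (v' : ι → ℝ),
        qf a B' v' x = (fun i => li (a i) x) ⬝ᵥ (B' *ᵥ (fun i => li (a i) x)) +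
          2 * (v' ⬝ᵥ (fun i => li (a i) x)) := by
      intro a B' v'
      unfold qf dotProduct Matrix.mulVec dotProduct
      congr 1
      refine Finset.sum_congr rfl fun i _ => ?_
      rw [Finset.mul_sum]
      refine Finset.sum_congr rfl fun j _ => ?_
      ring
    rw [hq b, hq c, hli x]
    set z : ι → ℝ := fun k => li (c k) x with hz
    rw [QCB_adj, QCB_adj Oᵀ, Matrix.transpose_transpose, Matrix.mulVec_mulVec,
      Matrix.mulVec_mulVec, Matrix.mul_assoc]
  · have hq : ∀ (a : OrthonormalBasis ι ℝ E) (B' : Matrix ι ι ℝ) (v' : ι → ℝ),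
        qv a B' v' U = v' + B' *ᵥ (fun i => mn U (a i)) := fun a B' v' => rfl
    have hv : qv c (Oᵀ * B * O) (Oᵀ *ᵥ v) U = Oᵀ *ᵥ qv b B v U := by
      rw [hq b, hq c, hmn, Matrix.mulVec_add, Matrix.mulVec_mulVec, Matrix.mulVec_mulVec,
        Matrix.mul_assoc]
    rw [hv, QCB_Ph, QCB_Ph, hM]
    set M := cm c U + 1 with hMd
    set w := qv b B v U with hw
    congr 1
    · have h1 : O * M * Oᵀ * B * (O * M * Oᵀ * B) =
          O * (M * (Oᵀ * B * O) * (M * (Oᵀ * B))) := by
        simp only [Matrix.mul_assoc]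
      rw [h1, Matrix.trace_mul_comm]
      simp only [Matrix.mul_assoc]
    · rw [QCB_adj Oᵀ, Matrix.transpose_transpose, Matrix.mulVec_mulVec, Matrix.mulVec_mulVec]

end

end Pool.Agent.H59.KA
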